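import Pool.Agent.Lib.MP_3e612f_nt.NF.Base
import Pool.Agent.Lib.MP_3e612f_nt.MR.Main

/-! Short sums of the Moebius function, logarithmic averages (paper, Part F). -/

set_option autoImplicit false

namespace Pool.Agent.Lib.MP_3e612f_nt.NF

open Finset
open Pool.Agent.Lib.MP_3e612f_nt.MR (mu ex)

/-- partial summation -/
private theorem abel (b : ℕ → ℝ) (N : ℕ) : ∑ n ∈ Icc 1 N, 1 / (n : ℝ) * b (n + 1) =
    (∑ m ∈ Icc 1 N, b (m + 1)) / (N + 1) + ∑ n ∈ Icc 1 N, (∑ m ∈ Icc 1 n, b (m + 1)) / ((n : ℝ) * (n + 1)) := by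
  induction N with
  | zero => simp
  | succ N ih =>
    rw [sum_Icc_succ_top (by omega), ih, sum_Icc_succ_top (by omega), sum_Icc_succ_top (by omega), sum_Icc_succ_top (by omega)]
    push_cast
    have h1 : (N : ℝ) + 1 ≠ 0 := by positivity
    have h2 : (N : ℝ) + 1 + 1 ≠ 0 := by positivity
    generalize ∑ m ∈ Icc 1 N, b (m + 1) = A
    generalize ∑ n ∈ Icc 1 N, (∑ m ∈ Icc 1 n, b (m + 1)) / ((n : ℝ) * (n + 1)) = T
    generalize b (N + 1 + 1) = y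
    field_simp
    ring

/-- From `MR.mr 1` (`a = 0`, every natural number is `0` in `ZMod 1`): for `H ≥ h₀`, `S(X) = ∑_{x<X} b_x ≤ (ε/4) H X` for `X ≥ X₀`, `b_x = |∑_{n<H} μ(x+n)|`; the inner sum over `h ∈ [1,H]` at `n` is the one at `x = n + 1`. Partial summation:
`∑_{n≤N} b_{n+1}/n = S(N+2)/N + ∑_{n<N} S(n+2)(1/n - 1/(n+1)) ≤ C(X₀,H) + (ε/4) H (log N + 3)·2`. -/
theorem log_mr (ε : ℝ) (hε : 0 < ε) : ∃ H₀ : ℕ, ∀ H : ℕ, H₀ ≤ H → ∃ N₀ : ℕ, ∀ N : ℕ, N₀ ≤ N →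
    ∑ n ∈ Icc 1 N, 1 / (n : ℝ) * ‖∑ h ∈ Icc 1 H, (mu (n + h) : ℂ)‖ ≤ ε * H * Real.log N := by
  obtain ⟨h₀, hh⟩ := Pool.Agent.Lib.MP_3e612f_nt.MR.mr 1 (ε / 4) (by positivity)
  refine ⟨max h₀ 1, fun H hH => ?_⟩
  have hH0 : h₀ ≤ H := (le_max_left _ _).trans hH
  have hH1 : 1 ≤ H := (le_max_right _ _).trans hH
  have hHR : (1 : ℝ) ≤ H := by exact_mod_cast hH1
  obtain ⟨X₀, hX⟩ := hh H hH0
  obtain ⟨b, hb⟩ : ∃ b : ℕ → ℝ, b = fun x => |∑ i ∈ range H, mu (x + i)| := ⟨_, rfl⟩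
  have hb0 : ∀ x, 0 ≤ b x := fun x => by
    rw [hb]
    exact abs_nonneg _
  have hbS : ∀ X, X₀ ≤ X → ∑ x ∈ range X, b x ≤ ε / 4 * H * X := by
    intro X hXX
    have h1 := hX X hXX 0
    refine le_trans (le_of_eq ?_) h1
    refine sum_congr rfl fun x _ => ?_
    rw [hb]
    beta_reduce
    refine congrArg _ (sum_congr rfl fun i _ => ?_)
    rw [if_pos (Subsingleton.elim _ _)]
    rfl
  have hnorm : ∀ n, ‖∑ h ∈ Icc 1 H, (mu (n + h) : ℂ)‖ = b (n + 1) := by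
    intro n
    have h1 : ∑ h ∈ Icc 1 H, (mu (n + h) : ℂ) = ((∑ i ∈ range H, mu (n + 1 + i) : ℝ) : ℂ) := by
      have h2 : Icc 1 H = Ico 1 (H + 1) := by
        ext x
        rw [mem_Icc, mem_Ico]
        omega
      rw [h2, sum_Ico_eq_sum_range, Complex.ofReal_sum, Nat.add_sub_cancel]
      refine sum_congr rfl fun i _ => ?_
      rw [← add_assoc]
    rw [h1, Complex.norm_real, Real.norm_eq_abs, hb]
  obtain ⟨K, hK⟩ : ∃ K : ℝ, K = ∑ x ∈ range X₀, b x := ⟨_, rfl⟩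
  have hK0 : 0 ≤ K := by
    rw [hK]
    exact sum_nonneg fun x _ => hb0 x
  have hA : ∀ n : ℕ, ∑ m ∈ Icc 1 n, b (m + 1) ≤ ε / 4 * H * (n + 2) + K := by
    intro n
    have h1 : ∑ m ∈ Icc 1 n, b (m + 1) ≤ ∑ x ∈ range (n + 2), b x := by
      rw [← sum_image (f := b) (g := fun m => m + 1) (s := Icc 1 n) (fun a _ c _ hac => Nat.succ_injective hac)]
      refine sum_le_sum_of_subset_of_nonneg ?_ fun x _ _ => hb0 x
      intro x hx
      rw [mem_image] at hx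
      obtain ⟨m, hm, rfl⟩ := hx
      rw [mem_Icc] at hm
      rw [mem_range]
      omega
    rcases le_total X₀ (n + 2) with h2 | h2
    · have h3 := hbS (n + 2) h2
      push_cast at h3
      linarith
    · have h3 : ∑ x ∈ range (n + 2), b x ≤ K := by
        rw [hK]
        refine sum_le_sum_of_subset_of_nonneg ?_ fun x _ _ => hb0 x
        intro x hx
        rw [mem_range] at hx ⊢
        omega
      have h4 : 0 ≤ ε / 4 * H * (n + 2) := by positivity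
      linarith
  have htend : Filter.Tendsto (fun N : ℕ => Real.log N) Filter.atTop Filter.atTop :=
    Real.tendsto_log_atTop.comp tendsto_natCast_atTop_atTop
  obtain ⟨N₀, hN₀⟩ := Filter.eventually_atTop.1 (htend.eventually_ge_atTop (4 + 4 * K / (ε * H)))
  refine ⟨N₀, fun N hN => ?_⟩
  have hlog := hN₀ N hN
  have h1 : ∑ n ∈ Icc 1 N, 1 / (n : ℝ) * ‖∑ h ∈ Icc 1 H, (mu (n + h) : ℂ)‖ = ∑ n ∈ Icc 1 N, 1 / (n : ℝ) * b (n + 1) :=
    sum_congr rfl fun n _ => by rw [hnorm]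
  rw [h1, abel]
  have h2 : (∑ m ∈ Icc 1 N, b (m + 1)) / ((N : ℝ) + 1) ≤ ε / 2 * H + K := by
    rw [div_le_iff₀ (by positivity)]
    refine (hA N).trans ?_
    have h3 : 0 ≤ ε / 4 * H * N := by positivity
    have h4 : 0 ≤ K * N := by positivity
    nlinarith
  have h3 : ∀ n ∈ Icc 1 N, (∑ m ∈ Icc 1 n, b (m + 1)) / ((n : ℝ) * (n + 1)) ≤ ε / 4 * H * (3 / 2) * (1 / (n : ℝ)) + K * (1 / (n : ℝ) - 1 / ((n : ℝ) + 1)) := by
    intro n hn
    rw [mem_Icc] at hn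
    have hn0 : (1 : ℝ) ≤ n := by exact_mod_cast hn.1
    have h4 : 1 / (n : ℝ) - 1 / ((n : ℝ) + 1) = 1 / ((n : ℝ) * (n + 1)) := by
      have h5 : (n : ℝ) ≠ 0 := by positivity
      field_simp
      ring
    rw [h4, div_le_iff₀ (by positivity)]
    refine (hA n).trans ?_
    have h6 : (ε / 4 * H * (3 / 2) * (1 / (n : ℝ)) + K * (1 / ((n : ℝ) * (n + 1)))) * ((n : ℝ) * (n + 1)) = ε / 4 * H * (3 / 2) * (n + 1) + K := by
      have h5 : (n : ℝ) ≠ 0 := by positivity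
      field_simp
    rw [h6]
    have h7 : 0 < ε / 4 * H := by positivity
    nlinarith
  have h4 : ∑ n ∈ Icc 1 N, (∑ m ∈ Icc 1 n, b (m + 1)) / ((n : ℝ) * (n + 1)) ≤ ε / 4 * H * (3 / 2) * (1 + Real.log N) + K := by
    refine (sum_le_sum h3).trans ?_
    rw [sum_add_distrib, ← mul_sum, ← mul_sum]
    have h5 : ∑ n ∈ Icc 1 N, 1 / (n : ℝ) ≤ 1 + Real.log N := by
      have h6 := harmonic_le_one_add_log N
      rw [harmonic_eq_sum_Icc] at h6
      push_cast at h6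
      refine le_trans (le_of_eq ?_) h6
      exact sum_congr rfl fun n _ => by rw [one_div]
    have h6 : ∀ M : ℕ, ∑ n ∈ Icc 1 M, (1 / (n : ℝ) - 1 / ((n : ℝ) + 1)) = 1 - 1 / ((M : ℝ) + 1) := by
      intro M
      induction M with
      | zero => simp
      | succ M ih =>
        rw [sum_Icc_succ_top (by omega), ih]
        push_cast
        ring
    have h7 : ∑ n ∈ Icc 1 N, (1 / (n : ℝ) - 1 / ((n : ℝ) + 1)) ≤ 1 := by
      rw [h6]
      have : 0 ≤ 1 / ((N : ℝ) + 1) := by positivity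
      linarith
    have h8 : 0 ≤ ε / 4 * H * (3 / 2) := by positivity
    have h9 := mul_le_mul_of_nonneg_left h5 h8
    have h10 := mul_le_mul_of_nonneg_left h7 hK0
    linarith
  have h5 : 2 * K ≤ ε * H * (Real.log N - 4) / 2 := by
    have h6 : 4 * K / (ε * H) ≤ Real.log N - 4 := by linarith
    rw [div_le_iff₀ (by positivity)] at h6
    linarith
  have h6 : 0 < ε * H := by positivity
  nlinarith [mul_pos h6 (by linarith [div_nonneg (mul_nonneg (by norm_num : (0:ℝ) ≤ 4) hK0) h6.le] : (0:ℝ) < Real.log N)]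

end Pool.Agent.Lib.MP_3e612f_nt.NF
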