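import Pool.Agent.Lib.MP_3e612f_nt.NF.Q.Pair
import Pool.Agent.Lib.MP_3e612f_nt.NF.K.Main

/-! The hypothesis (pair) for nilrotations (paper, FA). -/

set_option autoImplicit false

namespace Pool.Agent.Lib.MP_3e612f_nt.NF

open Finset
open Pool.Agent.Lib.MP_3e612f_nt.MR (mu ex)

/-- `c` from `pair_rel`, `C` a bound for `|F - c|` (`Adm.bdd`). `F((g^(s+pj)) a) = F((g^p)^j (g^s a))`. For `k ≥ 1` apply `pair_rel` with `κ C²` to `g^p, g'^q, g^s a, g'^{s'} a'` and `p 0 (g^p) = p • p 0 g` (`Mal.p0_pow`, `dot_smul`). For `k = 0`, `F` is constant and `c = F 1` can be chosen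
(left invariance under `LL G 0 = G`): all the sums are 0. -/
theorem pairhyp_nil {G : Type} [Group G] [TopologicalSpace G] [IsTopologicalGroup G] {Γ : Subgroup G} {k : ℕ} (M : Mal G Γ k) {F : G → ℂ} (hF : Adm Γ k F) :
    ∃ (c : ℂ) (C : ℝ), 0 < C ∧ (∀ x, ‖F x - c‖ ≤ C) ∧
      PairHyp 1 (fun (o : G × G) (n : ℕ) => (F (o.1 ^ n * o.2) - c) / C) (fun o : G × G => M.p 0 o.1) := by
  obtain ⟨C₀, hC₀, hb⟩ := hF.bdd M
  rcases Nat.eq_zero_or_pos k with hk | hk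
  · subst hk
    have h0 : ∀ x, F x = F 1 := by
      intro x
      have := hF.left 1 x (LL_zero x)
      rwa [mul_one] at this
    refine ⟨F 1, 1, one_pos, fun x => ?_, fun κ hκ => ⟨0, fun p q J hp hq hJ o o' s s' h => ?_⟩⟩
    · rw [h0 x, sub_self, norm_zero]
      exact zero_le_one
    exfalso
    have h1 : ∑ j ∈ range J, (fun (o : G × G) (n : ℕ) => (F (o.1 ^ n * o.2) - F 1) / ((1 : ℝ) : ℂ)) o (s + p * j) *
        (starRingEnd ℂ) ((fun (o : G × G) (n : ℕ) => (F (o.1 ^ n * o.2) - F 1) / ((1 : ℝ) : ℂ)) o' (s' + q * j)) = 0 := by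
      refine sum_eq_zero fun j _ => ?_
      beta_reduce
      rw [h0 (o.1 ^ (s + p * j) * o.2), sub_self, zero_div, zero_mul]
    rw [h1, norm_zero] at h
    have hJR : (0 : ℝ) < J := by exact_mod_cast hJ
    have : 0 < κ * J := by positivity
    linarith
  · obtain ⟨c, hc⟩ := pair_rel M hF
    obtain ⟨C, hC⟩ : ∃ C : ℝ, C = C₀ + ‖c‖ := ⟨_, rfl⟩
    have hCpos : 0 < C := by
      rw [hC]
      positivity
    refine ⟨c, C, hCpos, fun x => ?_, fun κ hκ => ?_⟩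
    · rw [hC]
      exact (norm_sub_le _ _).trans (add_le_add (hb x) le_rfl)
    obtain ⟨B, hB⟩ := hc (κ * C ^ 2) (by positivity)
    refine ⟨B, fun p q J hp hq hJ o o' s s' h => ?_⟩
    have hCne : (C : ℂ) ≠ 0 := by exact_mod_cast hCpos.ne'
    have h1 : ∑ j ∈ range J, (F ((o.1 ^ p) ^ j * (o.1 ^ s * o.2)) - c) * (starRingEnd ℂ) (F ((o'.1 ^ q) ^ j * (o'.1 ^ s' * o'.2)) - c) =
        ((C ^ 2 : ℝ) : ℂ) * ∑ j ∈ range J, ((F (o.1 ^ (s + p * j) * o.2) - c) / C) * (starRingEnd ℂ) ((F (o'.1 ^ (s' + q * j) * o'.2) - c) / C) := by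
      rw [mul_sum]
      refine sum_congr rfl fun j _ => ?_
      rw [← mul_assoc ((o.1 ^ p) ^ j), ← mul_assoc ((o'.1 ^ q) ^ j), ← pow_mul, ← pow_mul, ← pow_add, ← pow_add, add_comm (p * j), add_comm (q * j),
        map_div₀, Complex.conj_ofReal]
      push_cast
      field_simp
    obtain ⟨m, m', h2, h3, h4, h5⟩ := hB J (o.1 ^ p) (o'.1 ^ q) (o.1 ^ s * o.2) (o'.1 ^ s' * o'.2) hJ (by
      rw [h1, norm_mul, Complex.norm_real, Real.norm_of_nonneg (by positivity : (0 : ℝ) ≤ C ^ 2)]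
      have h6 := mul_le_mul_of_nonneg_left h (by positivity : (0 : ℝ) ≤ C ^ 2)
      refine le_trans (le_of_eq ?_) h6
      ring)
    refine ⟨m, m', h2, h3, h4, ?_⟩
    rw [M.p0_pow hk, M.p0_pow hk, dot_smul, dot_smul] at h5
    simpa only [pow_one] using h5

end Pool.Agent.Lib.MP_3e612f_nt.NF
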