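import Pool.Agent.Lib.MP_3e612f_nt.NF.O.MainO
import Pool.Agent.Lib.MP_3e612f_nt.NF.O.MRo
import Pool.Agent.Lib.MP_3e612f_nt.NF.F.PairA

/-! Theorem (A), ordinary averages, null sets. -/

set_option autoImplicit false

namespace Pool.Agent.Lib.MP_3e612f_nt.NF

open Finset
open Pool.Agent.Lib.MP_3e612f_nt.MR (mu ex)

/-- (A), ordinary averages. As `part_a` (F/A): `F = c + C f`, `windows_o` for `f` (with `ε/(2C)`) and `mr_o` for the constant (with `ε/(2(‖c‖+1))`). -/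
theorem part_ao {G : Type} [Group G] [TopologicalSpace G] [IsTopologicalGroup G] {Γ : Subgroup G} {k : ℕ} (M : Mal G Γ k) (hk : LL G k = ⊥) (F : G → ℂ)
    (hF : Continuous F) (hΓ : ∀ x, ∀ γ ∈ Γ, F (x * γ) = F x) (ε : ℝ) (hε : 0 < ε) : ∃ B : ℕ, ∀ S : Set G,
      (∀ m : M.I 0 → ℤ, m ≠ 0 → (∀ i, |m i| ≤ B) → Small 0 (Fr {x | ∃ g ∈ S, x = dot m (M.p 0 g)})) →
      ∃ H₀ : ℕ, ∀ H : ℕ, H₀ ≤ H → ∃ N₀ : ℕ, ∀ N : ℕ, N₀ ≤ N → ∀ g a : ℕ → G, (∀ n, g n ∈ S) →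
        ∑ n ∈ Icc 1 N, ‖∑ h ∈ Icc 1 H, (mu (n + h) : ℂ) * F (g n ^ h * a n)‖ ≤ ε * H * N := by
  have hadm : Adm Γ k F := by
    refine ⟨hF, hΓ, fun x h hh => ?_⟩
    rw [hk, Subgroup.mem_bot] at hh
    rw [hh, one_mul]
  obtain ⟨c, C, hC, hbd, hpair⟩ := pairhyp_nil M hadm
  obtain ⟨B, hB⟩ := windows_o 1 le_rfl (fun (o : G × G) (n : ℕ) => (F (o.1 ^ n * o.2) - c) / C)
    (fun o n => by
      rw [norm_div, Complex.norm_real, Real.norm_of_nonneg hC.le, div_le_one hC]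
      exact hbd _)
    (fun o : G × G => M.p 0 o.1) hpair (ε / (2 * C)) (by positivity)
  refine ⟨B, fun S hS => ?_⟩
  obtain ⟨H₁, hH₁⟩ := hB {o : G × G | o.1 ∈ S} (by
    intro m hm hmB
    have h1 : {x | ∃ o ∈ {o : G × G | o.1 ∈ S}, x = dot m (M.p 0 o.1)} = {x | ∃ g ∈ S, x = dot m (M.p 0 g)} := by
      ext x
      constructor
      · rintro ⟨o, ho, hx⟩
        exact ⟨o.1, ho, hx⟩
      · rintro ⟨g, hg, hx⟩
        exact ⟨(g, 1), hg, hx⟩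
    rw [h1]
    exact hS m hm hmB)
  have hc1 : 0 < ‖c‖ + 1 := by positivity
  obtain ⟨H₂, hH₂⟩ := mr_o (ε / (2 * (‖c‖ + 1))) (by positivity)
  refine ⟨max H₁ H₂, fun H hH => ?_⟩
  obtain ⟨N₁, hN₁⟩ := hH₁ H ((le_max_left _ _).trans hH)
  obtain ⟨N₂, hN₂⟩ := hH₂ H ((le_max_right _ _).trans hH)
  refine ⟨max N₁ N₂, fun N hN g a hg => ?_⟩
  have h1 := hN₁ N ((le_max_left _ _).trans hN) (fun n => (g n, a n)) (fun n => hg n)
  have h2 := hN₂ N ((le_max_right _ _).trans hN)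
  have h3 : ∀ n ∈ Icc 1 N, ‖∑ h ∈ Icc 1 H, (mu (n + h) : ℂ) * F (g n ^ h * a n)‖ ≤
      ‖c‖ * ‖∑ h ∈ Icc 1 H, (mu (n + h) : ℂ)‖ +
        C * ‖∑ h ∈ Icc 1 H, (mu (n + h) : ℂ) * ((F (g n ^ h * a n) - c) / C)‖ := by
    intro n _
    have h4 : ∑ h ∈ Icc 1 H, (mu (n + h) : ℂ) * F (g n ^ h * a n) =
        c * ∑ h ∈ Icc 1 H, (mu (n + h) : ℂ) +
          (C : ℂ) * ∑ h ∈ Icc 1 H, (mu (n + h) : ℂ) * ((F (g n ^ h * a n) - c) / C) := by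
      rw [mul_sum, mul_sum, ← sum_add_distrib]
      refine sum_congr rfl fun h _ => ?_
      have hC' : (C : ℂ) ≠ 0 := by exact_mod_cast hC.ne'
      field_simp
      ring
    rw [h4]
    have h5 := norm_add_le (c * ∑ h ∈ Icc 1 H, (mu (n + h) : ℂ))
      ((C : ℂ) * ∑ h ∈ Icc 1 H, (mu (n + h) : ℂ) * ((F (g n ^ h * a n) - c) / C))
    rw [norm_mul, norm_mul, Complex.norm_real, Real.norm_of_nonneg hC.le] at h5
    exact h5
  calc _ ≤ ∑ n ∈ Icc 1 N, (‖c‖ * ‖∑ h ∈ Icc 1 H, (mu (n + h) : ℂ)‖ +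
        C * ‖∑ h ∈ Icc 1 H, (mu (n + h) : ℂ) * ((F (g n ^ h * a n) - c) / C)‖) :=
        sum_le_sum h3
    _ = ‖c‖ * ∑ n ∈ Icc 1 N, ‖∑ h ∈ Icc 1 H, (mu (n + h) : ℂ)‖ +
        C * ∑ n ∈ Icc 1 N, ‖∑ h ∈ Icc 1 H, (mu (n + h) : ℂ) * ((F (g n ^ h * a n) - c) / C)‖ := by
        rw [sum_add_distrib, mul_sum, mul_sum]
    _ ≤ ‖c‖ * (ε / (2 * (‖c‖ + 1)) * H * N) + C * (ε / (2 * C) * H * N) :=
        add_le_add (mul_le_mul_of_nonneg_left h2 (norm_nonneg _)) (mul_le_mul_of_nonneg_left h1 hC.le)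
    _ ≤ ε * H * N := by
        have e1 : C * (ε / (2 * C) * H * N) = ε / 2 * (H * N) := by
          field_simp
        have e2 : ‖c‖ * (ε / (2 * (‖c‖ + 1)) * H * N) ≤ ε / 2 * (H * N) := by
          have e3 : ‖c‖ * (ε / (2 * (‖c‖ + 1)) * H * N) =
              (‖c‖ / (‖c‖ + 1)) * (ε / 2 * (H * N)) := by
            field_simp
          rw [e3]
          have e4 : ‖c‖ / (‖c‖ + 1) ≤ 1 := by
            rw [div_le_one hc1]
            linarith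
          have e5 : 0 ≤ ε / 2 * ((H : ℝ) * N) := by positivity
          exact (mul_le_mul_of_nonneg_right e4 e5).trans (le_of_eq (one_mul _))
        rw [e1]
        linarith

end Pool.Agent.Lib.MP_3e612f_nt.NF
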