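import Pool.Agent.Lib.MP_3e612f_nt.NF.F.Scale
import Pool.Agent.Lib.MP_3e612f_nt.NF.K.Main
import Pool.Agent.Lib.MP_3e612f_nt.NF.WeylAll

/-! Theorem (B): polynomial phases. -/

set_option autoImplicit false

namespace Pool.Agent.Lib.MP_3e612f_nt.NF

open Finset
open Pool.Agent.Lib.MP_3e612f_nt.MR (mu ex)

/-- `P (s + p X)` has degree at most `t`. -/
theorem FB_natDegree (t : ℕ) (P : Polynomial ℝ) (hP : P.natDegree ≤ t) (s p : ℝ) :
    (P.comp (Polynomial.C s + Polynomial.C p * Polynomial.X)).natDegree ≤ t := by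
  refine Polynomial.natDegree_comp_le.trans ?_
  have h1 : (Polynomial.C s + Polynomial.C p * Polynomial.X : Polynomial ℝ).natDegree ≤ 1 := by
    rw [add_comm]
    exact Polynomial.natDegree_linear_le
  calc P.natDegree * (Polynomial.C s + Polynomial.C p * Polynomial.X : Polynomial ℝ).natDegree ≤ t * 1 := Nat.mul_le_mul hP h1
    _ = t := mul_one t

/-- The `t`-th coefficient of `P (s + p X)`. -/
theorem FB_coeff (t : ℕ) (P : Polynomial ℝ) (hP : P.natDegree ≤ t) (s p : ℝ) :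
    (P.comp (Polynomial.C s + Polynomial.C p * Polynomial.X)).coeff t = p ^ t * P.coeff t := by
  have h1 : (Polynomial.C s + Polynomial.C p * Polynomial.X : Polynomial ℝ).natDegree ≤ 1 := by
    rw [add_comm]
    exact Polynomial.natDegree_linear_le
  have h2 : (Polynomial.C s + Polynomial.C p * Polynomial.X : Polynomial ℝ).coeff 1 = p := by
    rw [Polynomial.coeff_add, Polynomial.coeff_C_mul, Polynomial.coeff_X_one, Polynomial.coeff_C_of_ne_zero one_ne_zero]
    ring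
  rw [Polynomial.comp, Polynomial.eval₂_eq_sum_range' Polynomial.C (Nat.lt_succ_of_le hP), Polynomial.finsetSum_coeff,
    Finset.sum_range_succ, Finset.sum_eq_zero, zero_add]
  · rw [Polynomial.coeff_C_mul]
    have h3 := Polynomial.coeff_pow_of_natDegree_le (m := t) h1
    rw [mul_one] at h3
    rw [h3, h2]
    ring
  · intro i hi
    rw [Finset.mem_range] at hi
    have h4 : ((Polynomial.C s + Polynomial.C p * Polynomial.X : Polynomial ℝ) ^ i).coeff t = 0 := by
      apply Polynomial.coeff_eq_zero_of_natDegree_lt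
      refine lt_of_le_of_lt (Polynomial.natDegree_pow_le_of_le i h1) ?_
      rw [mul_one]
      exact hi
    rw [Polynomial.coeff_C_mul, h4, mul_zero]

/-- The hypothesis (pair): `R(j) = P(s + pj) - P'(s' + qj)` is a polynomial of degree at most `t` with `t`-th coefficient `p^t P_t - q^t P'_t`; `weyl' t` (`κ`): `k ≤ K` with `dZ (k R_t) ≤ K/J^t ≤ K/J`: `m = k`, `m' = -k`. -/
theorem pairhyp_poly (t : ℕ) (ht : 1 ≤ t) : PairHyp t (fun (P : {P : Polynomial ℝ // P.natDegree ≤ t}) (n : ℕ) => ex (P.1.eval (n : ℝ)))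
    (fun (P : {P : Polynomial ℝ // P.natDegree ≤ t}) (_ : Unit) => P.1.coeff t) := by
  intro κ hκ
  obtain ⟨K, hK1, hK⟩ := weyl' t ht κ hκ
  refine ⟨K, ?_⟩
  intro p q J hp hq hJ o o' s s' h
  set R : Polynomial ℝ := o.1.comp (Polynomial.C (s : ℝ) + Polynomial.C (p : ℝ) * Polynomial.X) -
    o'.1.comp (Polynomial.C (s' : ℝ) + Polynomial.C (q : ℝ) * Polynomial.X) with hR
  have hRd : R.natDegree ≤ t := (Polynomial.natDegree_sub_le_of_le (FB_natDegree t o.1 o.2 s p) (FB_natDegree t o'.1 o'.2 s' q)).trans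
    (le_of_eq (max_self t))
  have hRc : R.coeff t = (p : ℝ) ^ t * o.1.coeff t - (q : ℝ) ^ t * o'.1.coeff t := by
    rw [hR, Polynomial.coeff_sub, FB_coeff t o.1 o.2, FB_coeff t o'.1 o'.2]
  have hsum : ∑ n ∈ range J, ex (R.eval (n : ℝ)) = ∑ j ∈ range J, ex (o.1.eval ((s + p * j : ℕ) : ℝ)) *
      (starRingEnd ℂ) (ex (o'.1.eval ((s' + q * j : ℕ) : ℝ))) := by
    refine Finset.sum_congr rfl fun j _ => ?_
    rw [← ex_sub, hR, Polynomial.eval_sub, Polynomial.eval_comp, Polynomial.eval_comp]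
    simp only [Polynomial.eval_add, Polynomial.eval_mul, Polynomial.eval_C, Polynomial.eval_X]
    push_cast
    rfl
  obtain ⟨k, hk1, hk2, hk3⟩ := hK J hJ R hRd (by rw [hsum]; exact h)
  refine ⟨fun _ => (k : ℤ), fun _ => -(k : ℤ), ?_, ?_, ?_, ?_⟩
  · left
    intro h0
    have := congrFun h0 ()
    simp only [Pi.zero_apply] at this
    omega
  · intro i
    show |(k : ℤ)| ≤ (K : ℤ)
    rw [abs_of_nonneg (by positivity)]
    exact_mod_cast hk2
  · intro i
    show |-(k : ℤ)| ≤ (K : ℤ)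
    rw [abs_neg, abs_of_nonneg (by positivity)]
    exact_mod_cast hk2
  · have h1 : (p : ℝ) ^ t * dot (fun _ : Unit => (k : ℤ)) (fun _ => o.1.coeff t) +
        (q : ℝ) ^ t * dot (fun _ : Unit => -(k : ℤ)) (fun _ => o'.1.coeff t) = k * R.coeff t := by
      rw [hRc]
      simp only [dot, Finset.univ_unique, Finset.sum_singleton]
      push_cast
      ring
    rw [h1]
    refine hk3.trans ?_
    have hJ1 : (1 : ℝ) ≤ J := by exact_mod_cast hJ
    have h2 : (J : ℝ) ≤ (J : ℝ) ^ t := by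
      calc (J : ℝ) = (J : ℝ) ^ 1 := (pow_one _).symm
        _ ≤ (J : ℝ) ^ t := pow_le_pow_right₀ hJ1 ht
    exact div_le_div_of_nonneg_left (by positivity) (by linarith) h2

/-- (B). `windows`, `pairhyp_poly`, `small_scale` (`η := η'/(B²+1)`; `dot m (fun _ => x) = m () * x`). -/
theorem part_b (t : ℕ) (ht : 1 ≤ t) (ε : ℝ) (hε : 0 < ε) : ∃ η : ℝ, 0 < η ∧ ∀ T : Set ℝ, Small η (Fr T) →
      ∃ H₀ : ℕ, ∀ H : ℕ, H₀ ≤ H → ∃ N₀ : ℕ, ∀ N : ℕ, N₀ ≤ N → ∀ P : ℕ → Polynomial ℝ, (∀ n, (P n).natDegree ≤ t ∧ (P n).coeff t ∈ T) →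
        ∑ n ∈ Icc 1 N, 1 / (n : ℝ) * ‖∑ h ∈ Icc 1 H, (mu (n + h) : ℂ) * ex ((P n).eval (h : ℝ))‖ ≤ ε * H * Real.log N := by
  obtain ⟨η', hη', B, hB⟩ := windows t ht (fun (P : {P : Polynomial ℝ // P.natDegree ≤ t}) (n : ℕ) => ex (P.1.eval (n : ℝ)))
    (fun o n => (norm_ex _).le) (fun (P : {P : Polynomial ℝ // P.natDegree ≤ t}) (_ : Unit) => P.1.coeff t) (pairhyp_poly t ht) ε hε
  refine ⟨η' / ((B : ℝ) ^ 2 + 1), by positivity, ?_⟩
  intro T hT
  have hS := hB {P : {P : Polynomial ℝ // P.natDegree ≤ t} | P.1.coeff t ∈ T} (by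
    intro m hm hmB
    have hm0 : m () ≠ 0 := by
      intro h0
      apply hm
      funext i
      exact h0
    have h1 := small_scale T (η' / ((B : ℝ) ^ 2 + 1)) hT (by positivity) (m ()) hm0
    have h2 : {x : ℝ | ∃ o ∈ {P : {P : Polynomial ℝ // P.natDegree ≤ t} | P.1.coeff t ∈ T}, x = dot m (fun _ : Unit => o.1.coeff t)} =
        {x | ∃ y ∈ T, x = m () * y} := by
      ext x
      simp only [Set.mem_ofPred_eq, dot, Finset.univ_unique, Finset.sum_singleton]
      constructor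
      · rintro ⟨o, ho, rfl⟩
        exact ⟨_, ho, rfl⟩
      · rintro ⟨y, hy, rfl⟩
        refine ⟨⟨Polynomial.monomial t y, Polynomial.natDegree_monomial_le y⟩, ?_, ?_⟩
        · simp only [Polynomial.coeff_monomial, if_true]
          exact hy
        · simp only [Polynomial.coeff_monomial, if_true]
    rw [h2]
    refine ⟨h1.1.trans (ENNReal.ofReal_le_ofReal ?_), h1.2⟩
    have h3 : ((m () : ℤ) : ℝ) ^ 2 ≤ (B : ℝ) ^ 2 := by
      have h4 : |((m () : ℤ) : ℝ)| ≤ (B : ℝ) := by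
        have := hmB ()
        exact_mod_cast this
      rw [← sq_abs]
      exact pow_le_pow_left₀ (abs_nonneg _) h4 2
    rw [← mul_div_assoc, div_le_iff₀ (by positivity)]
    nlinarith)
  obtain ⟨H₀, hH⟩ := hS
  refine ⟨H₀, fun H hH0 => ?_⟩
  obtain ⟨N₀, hN⟩ := hH H hH0
  refine ⟨N₀, fun N hN0 P hP => ?_⟩
  exact hN N hN0 (fun n => ⟨P n, (hP n).1⟩) (fun n => (hP n).2)

end Pool.Agent.Lib.MP_3e612f_nt.NF
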