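import Pool.Agent.Lib.MP_3e612f_nt.NF.Base

/-! Integral multiples of small sets (paper, FB). -/

set_option autoImplicit false

namespace Pool.Agent.Lib.MP_3e612f_nt.NF

open Finset
open Pool.Agent.Lib.MP_3e612f_nt.MR (mu ex)

/-- every element of `Fr (m T)` is `m y + z` with `y ∈ Fr T ∩ [0,1)`. -/
theorem fr_scale_sub (T : Set ℝ) (m : ℤ) (hm : m ≠ 0) {x : ℝ} (hx : x ∈ Fr {x | ∃ y ∈ T, x = m * y}) :
    ∃ y ∈ Fr T ∩ Set.Ico 0 1, ∃ z : ℤ, x = m * y + z := by
  have hm' : (m : ℝ) ≠ 0 := by exact_mod_cast hm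
  have hcl : IsClosed (⋃ j ∈ Finset.range m.natAbs, {x : ℝ | (x - (j : ℝ)) / m ∈ Fr T}) := by
    refine isClosed_biUnion_finset (fun j _ => ?_)
    exact (Fr_closed T).preimage (by fun_prop : Continuous (fun x : ℝ => (x - (j : ℝ)) / m))
  have hsub : {x : ℝ | ∃ y ∈ {x : ℝ | ∃ y ∈ T, x = m * y}, ∃ z : ℤ, x = y + z} ⊆ ⋃ j ∈ Finset.range m.natAbs, {x : ℝ | (x - (j : ℝ)) / m ∈ Fr T} := by
    rintro x ⟨y, ⟨t, ht, rfl⟩, z, rfl⟩
    simp only [Set.mem_iUnion, Set.mem_ofPred_eq, exists_prop]
    refine ⟨(z % m).toNat, ?_, ?_⟩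
    · rw [Finset.mem_range]
      have h1 := Int.emod_nonneg z hm
      have h2 := Int.emod_lt_abs z hm
      rw [Int.abs_eq_natAbs] at h2
      omega
    · have h1 := Int.emod_nonneg z hm
      have h3 : (((z % m).toNat : ℕ) : ℝ) = ((z % m : ℤ) : ℝ) := by
        have := Int.toNat_of_nonneg h1
        exact_mod_cast this
      have h4 : ((z : ℤ) : ℝ) = m * ((z / m : ℤ) : ℝ) + ((z % m : ℤ) : ℝ) := by
        have := Int.mul_ediv_add_emod z m
        exact_mod_cast this.symm
      have h5 : (m * t + (z : ℝ) - (((z % m).toNat : ℕ) : ℝ)) / m = t + ((z / m : ℤ) : ℝ) := by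
        rw [h3, h4]
        field_simp
        ring
      rw [h5]
      exact Fr_add_int T (mem_Fr ht) _
  have hx2 := closure_minimal hsub hcl hx
  simp only [Set.mem_iUnion, Set.mem_ofPred_eq, exists_prop] at hx2
  obtain ⟨j, -, hj⟩ := hx2
  set y : ℝ := (x - (j : ℝ)) / m with hy
  refine ⟨Int.fract y, ⟨?_, Int.fract_nonneg y, Int.fract_lt_one y⟩, m * ⌊y⌋ + j, ?_⟩
  · have := Fr_add_int T hj (-⌊y⌋)
    rw [Int.fract]
    push_cast at this
    rwa [← sub_eq_add_neg] at this
  · have h6 : x = m * y + j := by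
      rw [hy]
      field_simp
      ring
    have h7 : y = ⌊y⌋ + Int.fract y := (Int.floor_add_fract y).symm
    push_cast
    rw [h6]
    linear_combination (m : ℝ) * h7

theorem volume_affine (S : Set ℝ) (m : ℤ) (hm : m ≠ 0) (z : ℤ) :
    MeasureTheory.volume {x : ℝ | ∃ y ∈ S, x = m * y + z} = ENNReal.ofReal |(m : ℝ)| * MeasureTheory.volume S := by
  have hm' : (m : ℝ) ≠ 0 := by exact_mod_cast hm
  have h1 : {x : ℝ | ∃ y ∈ S, x = m * y + z} = (fun x => x + (-(z : ℝ))) ⁻¹' (((m : ℝ)⁻¹ * ·) ⁻¹' S) := by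
    ext x
    simp only [Set.mem_ofPred_eq, Set.mem_preimage]
    constructor
    · rintro ⟨y, hy, rfl⟩
      have : (m : ℝ)⁻¹ * (m * y + z + -(z : ℝ)) = y := by
        field_simp
        ring
      rwa [this]
    · intro h
      exact ⟨_, h, by field_simp; ring⟩
  rw [h1, MeasureTheory.measure_preimage_add_right, Real.volume_preimage_mul_left (inv_ne_zero hm')]
  rw [inv_inv]

/-- `mC + ℤ = ⋃_{0 ≤ j < |m|} (mC + j)` for the closed 1-periodic set `C = Fr T` is closed and contains `Fr (m T)`; a rational number in it would give one in `C`; `(mC + j) ∩ [0,1)` is the image of `C ∩ [(-j)/m, (1-j)/m)` under `x ↦ m x + j`, so its measure is at most `|m|` times that of a part of `C` of length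
`1/|m| ≤ 1`, at most `|m| η` by periodicity: total `≤ m² η`. -/
theorem small_scale (T : Set ℝ) (η : ℝ) (h : Small η (Fr T)) (hη : 0 ≤ η) (m : ℤ) (hm : m ≠ 0) : Small ((m : ℝ) ^ 2 * η) (Fr {x | ∃ y ∈ T, x = m * y}) := by
  have hm' : (m : ℝ) ≠ 0 := by exact_mod_cast hm
  obtain ⟨hvol, hrat⟩ := h
  constructor
  · set C : Set ℝ := Fr T ∩ Set.Ico 0 1 with hC
    set J : Finset ℤ := if 0 < m then Finset.Ioc (-m) 0 else Finset.Icc 1 (-m) with hJ
    have hcard : J.card = m.natAbs := by
      rw [hJ]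
      split_ifs with h0
      · rw [Int.card_Ioc]
        omega
      · rw [Int.card_Icc]
        omega
    have hsub : Fr {x | ∃ y ∈ T, x = m * y} ∩ Set.Ico 0 1 ⊆ ⋃ z ∈ J, {x : ℝ | ∃ y ∈ C, x = m * y + z} := by
      rintro x ⟨hx, hx0, hx1⟩
      obtain ⟨y, hyC, z, rfl⟩ := fr_scale_sub T m hm hx
      have hy0 : 0 ≤ y := hyC.2.1
      have hy1 : y < 1 := hyC.2.2
      have hypos : 0 < y := by
        rcases hy0.lt_or_eq with h0 | h0
        · exact h0
        · exfalso
          apply hrat 0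
          rw [Rat.cast_zero, h0]
          exact hyC.1
      simp only [Set.mem_iUnion, exists_prop]
      refine ⟨z, ?_, y, hyC, rfl⟩
      rw [hJ]
      split_ifs with h0
      · have hmr : (0 : ℝ) < m := by exact_mod_cast h0
        rw [Finset.mem_Ioc]
        constructor
        · have : ((-m : ℤ) : ℝ) < z := by
            push_cast
            nlinarith
          exact_mod_cast this
        · have : (z : ℝ) < (1 : ℤ) := by
            push_cast
            nlinarith
          have : z < 1 := by exact_mod_cast this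
          omega
      · have hmr : (m : ℝ) < 0 := by
          have : m < 0 := by omega
          exact_mod_cast this
        rw [Finset.mem_Icc]
        constructor
        · have : (0 : ℝ) < z := by nlinarith
          have : 0 < z := by exact_mod_cast this
          omega
        · have : (z : ℝ) < ((-m + 1 : ℤ) : ℝ) := by
            push_cast
            nlinarith
          have : z < -m + 1 := by exact_mod_cast this
          omega
    calc MeasureTheory.volume (Fr {x | ∃ y ∈ T, x = m * y} ∩ Set.Ico 0 1)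
        ≤ MeasureTheory.volume (⋃ z ∈ J, {x : ℝ | ∃ y ∈ C, x = m * y + z}) := MeasureTheory.measure_mono hsub
      _ ≤ ∑ z ∈ J, MeasureTheory.volume {x : ℝ | ∃ y ∈ C, x = m * y + z} := MeasureTheory.measure_biUnion_finset_le J _
      _ = ∑ z ∈ J, ENNReal.ofReal |(m : ℝ)| * MeasureTheory.volume C := Finset.sum_congr rfl (fun z _ => volume_affine C m hm z)
      _ = (m.natAbs : ENNReal) * (ENNReal.ofReal |(m : ℝ)| * MeasureTheory.volume C) := by
          rw [Finset.sum_const, hcard, nsmul_eq_mul]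
      _ ≤ (m.natAbs : ENNReal) * (ENNReal.ofReal |(m : ℝ)| * ENNReal.ofReal η) := by gcongr
      _ = ENNReal.ofReal ((m : ℝ) ^ 2 * η) := by
          rw [← ENNReal.ofReal_natCast, ← ENNReal.ofReal_mul (abs_nonneg _), ← ENNReal.ofReal_mul (by positivity)]
          congr 1
          rw [← sq_abs (m : ℝ), Nat.cast_natAbs, Int.cast_abs]
          ring
  · intro q hq
    obtain ⟨y, hyC, z, hz⟩ := fr_scale_sub T m hm hq
    apply hrat ((q - z) / m)
    have : (((q - z) / m : ℚ) : ℝ) = y := by
      push_cast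
      rw [hz]
      field_simp
      ring
    rw [this]
    exact hyC.1

end Pool.Agent.Lib.MP_3e612f_nt.NF
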